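import Pool.Agent.MNE.StmtsA

/-!
# Squad MNE, row BAS: elementary facts about a solution
-/

set_option autoImplicit false

namespace Pool.Agent.MNE.H90

open Pool.Agent.MNE

theorem cop_of {a b c e : ℕ} (h : Nat.Coprime a c) (he : b + c = e) (ha : a ∣ e) :
    Nat.Coprime a b := by
  have h1 : Nat.gcd a b ∣ c := by
    have h2 : Nat.gcd a b ∣ b + c := by
      rw [he]
      exact (Nat.gcd_dvd_left a b).trans ha
    exact (Nat.dvd_add_right (Nat.gcd_dvd_right a b)).1 h2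
  have h3 : Nat.gcd a b ∣ Nat.gcd a c := Nat.dvd_gcd (Nat.gcd_dvd_left a b) h1
  rw [h] at h3
  exact Nat.dvd_one.1 h3

theorem bas : BasStmt := by
  intro f g x y z hS
  obtain ⟨hg, hd, hco, hodd, hx, hy, hz, heq⟩ := hS
  obtain ⟨d, rfl⟩ : ∃ d, f = g + d := ⟨f - g, by omega⟩
  have hdd : g + d - g = d := by omega
  rw [hdd]
  have hd2 : Odd d := by
    have h1 : g + d + g = d + 2 * g := by ring
    rw [h1] at hodd
    rcases Nat.even_or_odd d with h | h
    · exfalso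
      have : Even (d + 2 * g) := h.add (even_two_mul g)
      exact (Nat.not_even_iff_odd.2 hodd) this
    · exact h
  have hd3 : 3 ≤ d := by
    obtain ⟨k, hk⟩ := hd2
    omega
  -- the identities
  have hA : (g + d) ^ 2 - g ^ 2 = (g + d + g) * d := by
    have h1 : (g + d) ^ 2 = (g + d + g) * d + g ^ 2 := by ring
    rw [h1, Nat.add_sub_cancel]
  have hCB : ((g + d) ^ 2 + g ^ 2) + 2 * (g + d) * g = (g + d + g) ^ 2 := by ring
  have hCA : ((g + d) ^ 2 + g ^ 2) + ((g + d) ^ 2 - g ^ 2) = 2 * (g + d) ^ 2 := by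
    rw [hA]
    ring
  have hBC : 2 * (g + d) * g < (g + d) ^ 2 + g ^ 2 := by
    have h1 : (g + d) ^ 2 + g ^ 2 = 2 * (g + d) * g + d ^ 2 := by ring
    rw [h1]
    have : 0 < d ^ 2 := by positivity
    omega
  have hAC : (g + d) ^ 2 - g ^ 2 < (g + d) ^ 2 + g ^ 2 := by
    have : 0 < g ^ 2 := by positivity
    omega
  have h3f : 3 * (g + d) ≤ (g + d) ^ 2 - g ^ 2 := by
    rw [hA]
    calc 3 * (g + d) ≤ d * (g + d + g) := Nat.mul_le_mul hd3 (by omega)
      _ = (g + d + g) * d := by ring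
  -- coprimality
  have hdg : Nat.Coprime d g := by
    have h1 : Nat.Coprime g (g + d) := hco.symm
    exact ((Nat.coprime_self_add_right).1 h1).symm
  have hdf : Nat.Coprime d (g + d) := by
    rw [Nat.add_comm]
    exact (Nat.coprime_self_add_right).2 hdg
  have hs2 : Nat.Coprime (g + d + g) 2 := Nat.coprime_two_right.2 hodd
  have hd2' : Nat.Coprime d 2 := Nat.coprime_two_right.2 hd2
  have hsf : Nat.Coprime (g + d + g) (g + d) := by
    have h1 : Nat.Coprime (g + d) (g + d + g) := (Nat.coprime_self_add_right).2 hco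
    exact h1.symm
  have hsg : Nat.Coprime (g + d + g) g := by
    have h1 : Nat.Coprime g (g + (g + d)) := (Nat.coprime_self_add_right).2 hco.symm
    rw [Nat.add_comm g (g + d)] at h1
    exact h1.symm
  have hsB : Nat.Coprime (g + d + g) (2 * (g + d) * g) :=
    Nat.Coprime.mul_right (Nat.Coprime.mul_right hs2 hsf) hsg
  have hdB : Nat.Coprime d (2 * (g + d) * g) :=
    Nat.Coprime.mul_right (Nat.Coprime.mul_right hd2' hdf) hdg
  have hAB : Nat.Coprime ((g + d) ^ 2 - g ^ 2) (2 * (g + d) * g) := by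
    rw [hA]
    exact Nat.Coprime.mul_left hsB hdB
  have hsC : Nat.Coprime (g + d + g) ((g + d) ^ 2 + g ^ 2) :=
    cop_of hsB hCB (Dvd.intro _ (by ring : (g + d + g) * (g + d + g) = (g + d + g) ^ 2))
  have hfA : Nat.Coprime (g + d) ((g + d) ^ 2 - g ^ 2) :=
    cop_of (Nat.Coprime.pow_right 2 hco) (by
      rw [hA]
      ring : (g + d) ^ 2 - g ^ 2 + g ^ 2 = (g + d) ^ 2)
      (Dvd.intro _ (by ring : (g + d) * (g + d) = (g + d) ^ 2))
  have hA2 : Nat.Coprime ((g + d) ^ 2 - g ^ 2) 2 := by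
    rw [hA]
    exact Nat.Coprime.mul_left hs2 hd2'
  have hAC' : Nat.Coprime ((g + d) ^ 2 - g ^ 2) ((g + d) ^ 2 + g ^ 2) := by
    have h1 : Nat.Coprime ((g + d) ^ 2 - g ^ 2) (2 * (g + d) ^ 2) :=
      Nat.Coprime.mul_right hA2 (Nat.Coprime.pow_right 2 hfA.symm)
    rw [← hCA] at h1
    exact (Nat.coprime_add_self_right).1 h1
  have hfC : Nat.Coprime (g + d) ((g + d) ^ 2 + g ^ 2) := by
    have h1 : Nat.Coprime (g + d) (g ^ 2) := Nat.Coprime.pow_right 2 hco
    have h2 : (g + d) ^ 2 + g ^ 2 = (g + d) * (g + d) + g ^ 2 := by ring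
    rw [h2]
    exact (Nat.coprime_mul_left_add_right (g + d) (g ^ 2) (g + d)).2 h1
  have hgC : Nat.Coprime g ((g + d) ^ 2 + g ^ 2) := by
    have h1 : Nat.Coprime g ((g + d) ^ 2) := Nat.Coprime.pow_right 2 hco.symm
    have h2 : (g + d) ^ 2 + g ^ 2 = g * g + (g + d) ^ 2 := by ring
    rw [h2]
    exact (Nat.coprime_mul_left_add_right g ((g + d) ^ 2) g).2 h1
  have hC2 : Nat.Coprime ((g + d) ^ 2 + g ^ 2) 2 := by
    rw [Nat.coprime_two_right]
    have h1 : Odd ((g + d + g) ^ 2) := hodd.pow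
    rw [← hCB] at h1
    rcases Nat.even_or_odd ((g + d) ^ 2 + g ^ 2) with h | h
    · exfalso
      have h2 : Even (2 * (g + d) * g) := by
        rw [mul_assoc]
        exact even_two_mul _
      exact (Nat.not_even_iff_odd.2 h1) (h.add h2)
    · exact h
  have hCB' : Nat.Coprime ((g + d) ^ 2 + g ^ 2) (2 * (g + d) * g) :=
    Nat.Coprime.mul_right (Nat.Coprime.mul_right hC2 hfC.symm) hgC.symm
  -- the exponents
  have hxy : x ≠ y := by
    rintro rfl
    have h1 : d ∣ ((g + d) ^ 2 + g ^ 2) ^ x + (2 * (g + d) * g) ^ x := by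
      rw [heq, hA]
      exact dvd_pow (Dvd.intro_left _ rfl) hz.ne'
    have h2 : ((g + d) ^ 2 + g ^ 2) ^ x ≡ (2 * (g + d) * g) ^ x [MOD d] := by
      apply Nat.ModEq.pow
      have h3 : (g + d) ^ 2 + g ^ 2 = 2 * (g + d) * g + d * d := by ring
      rw [h3]
      unfold Nat.ModEq
      simp
    have h3 : 2 * (2 * (g + d) * g) ^ x ≡ 0 [MOD d] := by
      have h4 : ((g + d) ^ 2 + g ^ 2) ^ x + (2 * (g + d) * g) ^ x ≡
          (2 * (g + d) * g) ^ x + (2 * (g + d) * g) ^ x [MOD d] := h2.add_right _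
      have h5 : ((g + d) ^ 2 + g ^ 2) ^ x + (2 * (g + d) * g) ^ x ≡ 0 [MOD d] :=
        (Nat.modEq_zero_iff_dvd).2 h1
      have h6 := h4.symm.trans h5
      rwa [← two_mul] at h6
    have h4 : d ∣ 2 * (2 * (g + d) * g) ^ x := (Nat.modEq_zero_iff_dvd).1 h3
    have h5 : Nat.Coprime d (2 * (2 * (g + d) * g) ^ x) :=
      Nat.Coprime.mul_right hd2' (Nat.Coprime.pow_right x hdB)
    have h6 := Nat.Coprime.eq_one_of_dvd h5 h4
    omega
  have hA0 : 1 < (g + d) ^ 2 - g ^ 2 := by omega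
  have hB0 : 0 < 2 * (g + d) * g := by positivity
  have hxz : x < z := by
    have h1 : ((g + d) ^ 2 - g ^ 2) ^ x < ((g + d) ^ 2 - g ^ 2) ^ z := by
      calc ((g + d) ^ 2 - g ^ 2) ^ x ≤ ((g + d) ^ 2 + g ^ 2) ^ x := Nat.pow_le_pow_left hAC.le x
        _ < ((g + d) ^ 2 + g ^ 2) ^ x + (2 * (g + d) * g) ^ y := by
            have : 0 < (2 * (g + d) * g) ^ y := pow_pos hB0 y
            omega
        _ = ((g + d) ^ 2 - g ^ 2) ^ z := heq
    exact (Nat.pow_lt_pow_iff_right hA0).1 h1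
  have hz2 : z < 2 * max x y := by
    by_contra hcon
    push Not at hcon
    obtain ⟨m, hm⟩ : ∃ m, m = max x y := ⟨_, rfl⟩
    rw [← hm] at hcon
    have hm1 : 1 ≤ m := by rw [hm]; exact le_trans hx (le_max_left x y)
    have hC2f : (g + d) ^ 2 + g ^ 2 ≤ 2 * (g + d) ^ 2 := by
      rw [← hCA]
      exact Nat.le_add_right _ _
    have hf0 : 0 < 2 * (g + d) ^ 2 := by positivity
    have h1 : ((g + d) ^ 2 + g ^ 2) ^ x ≤ (2 * (g + d) ^ 2) ^ m :=
      (Nat.pow_le_pow_left hC2f x).trans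
        (Nat.pow_le_pow_right hf0 (by rw [hm]; exact le_max_left x y))
    have h2 : (2 * (g + d) * g) ^ y ≤ (2 * (g + d) ^ 2) ^ m :=
      (Nat.pow_le_pow_left (hBC.le.trans hC2f) y).trans
        (Nat.pow_le_pow_right hf0 (by rw [hm]; exact le_max_right x y))
    have h3 : (3 * (g + d)) ^ (2 * m) ≤ 2 * (2 * (g + d) ^ 2) ^ m := by
      calc (3 * (g + d)) ^ (2 * m) ≤ ((g + d) ^ 2 - g ^ 2) ^ (2 * m) :=
            Nat.pow_le_pow_left h3f _
        _ ≤ ((g + d) ^ 2 - g ^ 2) ^ z := Nat.pow_le_pow_right (by omega) hcon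
        _ = ((g + d) ^ 2 + g ^ 2) ^ x + (2 * (g + d) * g) ^ y := heq.symm
        _ ≤ (2 * (g + d) ^ 2) ^ m + (2 * (g + d) ^ 2) ^ m := Nat.add_le_add h1 h2
        _ = _ := by ring
    have h4 : (3 * (g + d)) ^ (2 * m) = 9 ^ m * ((g + d) ^ 2) ^ m := by
      rw [pow_mul, ← mul_pow]
      congr 1
      ring
    rw [h4, mul_pow, ← mul_assoc] at h3
    have h5 : 0 < ((g + d) ^ 2) ^ m := by positivity
    have h6 : 9 ^ m ≤ 2 * 2 ^ m := Nat.le_of_mul_le_mul_right h3 h5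
    have h7 : 2 * 2 ^ m < 9 ^ m := by
      calc 2 * 2 ^ m ≤ 2 ^ m * 2 ^ m := by
            apply Nat.mul_le_mul_right
            calc 2 = 2 ^ 1 := by norm_num
              _ ≤ 2 ^ m := Nat.pow_le_pow_right (by norm_num) hm1
        _ = 4 ^ m := by rw [← mul_pow]; norm_num
        _ < 9 ^ m := Nat.pow_lt_pow_left (by norm_num) (by omega)
    omega
  exact ⟨hxy, hxz, hz2, hd3, h3f, hBC, hAC, hA, hCB, hCA, hAC', hAB, hCB', hsC, hsB, hfC, hfA,
    hdB⟩

end Pool.Agent.MNE.H90
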